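import Mathlib

/-!
# Ample numbers coprime to the first `k` primes

For every `k` there is an ample number coprime to the first `k` primes.
The proof counts ordered prime factorisations: for a finite set `S` of primes with
`∑ 1 / q > 1` the sum of `a(n) / n` over the products `n` of `N` primes from `S`
is at least `(∑ 1 / q) ^ N`, while there are at most `(N + 1) ^ |S|` such `n`.
-/

namespace Pool.Agent.Results.MP_bbacab_nt.AmpleCoprime

/-- The number of recursive divisors: `a(n) = 1 + ∑ a(m)`, the sum over the proper divisors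
`m` of `n` (so `a(1) = 1`). -/
def recDiv (n : ℕ) : ℕ := 1 + ∑ m ∈ n.properDivisors.attach, recDiv m.1
termination_by n
decreasing_by exact (Nat.mem_properDivisors.mp m.2).2

lemma recDiv_eq (n : ℕ) : recDiv n = 1 + ∑ m ∈ n.properDivisors, recDiv m := by
  rw [recDiv, Finset.sum_attach n.properDivisors (fun m => recDiv m)]

/-- Products of `N` elements of `S`. -/
def W (S : Finset ℕ) : ℕ → Finset ℕ
  | 0 => {1}
  | N + 1 => (S ×ˢ W S N).image (fun x => x.1 * x.2)

lemma W_pos (S : Finset ℕ) (hS : ∀ q ∈ S, q.Prime) (N : ℕ) : ∀ n ∈ W S N, 0 < n := by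
  induction N with
  | zero => intro n hn; simp [W] at hn; omega
  | succ N ih =>
    intro n hn
    simp only [W, Finset.mem_image, Finset.mem_product, Prod.exists] at hn
    obtain ⟨q, m, ⟨hq, hm⟩, rfl⟩ := hn
    exact Nat.mul_pos (hS q hq).pos (ih m hm)

lemma W_coprime (S : Finset ℕ) (N : ℕ) (M : ℕ) (hM : ∀ q ∈ S, Nat.Coprime q M) :
    ∀ n ∈ W S N, Nat.Coprime n M := by
  induction N with
  | zero => intro n hn; simp [W] at hn; simp [hn]
  | succ N ih =>
    intro n hn
    simp only [W, Finset.mem_image, Finset.mem_product, Prod.exists] at hn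
    obtain ⟨q, m, ⟨hq, hm⟩, rfl⟩ := hn
    exact Nat.Coprime.mul_left (hM q hq) (ih m hm)

lemma W_exponents (S : Finset ℕ) (N : ℕ) :
    ∀ n ∈ W S N, ∃ f : ℕ → ℕ, (∀ q ∈ S, f q ≤ N) ∧ n = ∏ q ∈ S, q ^ f q := by
  induction N with
  | zero => intro n hn; simp [W] at hn; exact ⟨fun _ => 0, by simp, by simp [hn]⟩
  | succ N ih =>
    intro n hn
    simp only [W, Finset.mem_image, Finset.mem_product, Prod.exists] at hn
    obtain ⟨q, m, ⟨hq, hm⟩, rfl⟩ := hn
    obtain ⟨f, hf, hmf⟩ := ih m hm
    refine ⟨fun r => if r = q then f r + 1 else f r, ?_, ?_⟩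
    · intro r hr
      have := hf r hr
      dsimp only
      split_ifs <;> omega
    · rw [hmf]
      have : ∀ r ∈ S, r ^ (if r = q then f r + 1 else f r)
          = (if r = q then r else 1) * r ^ f r := by
        intro r _
        split_ifs
        · rw [pow_succ, mul_comm]
        · rw [one_mul]
      rw [Finset.prod_congr rfl this, Finset.prod_mul_distrib]
      congr 1
      rw [Finset.prod_ite_eq' S q (fun r => r), if_pos hq]

lemma W_card (S : Finset ℕ) (N : ℕ) : (W S N).card ≤ (N + 1) ^ S.card := by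
  classical
  have hsub : W S N ⊆ (S.pi (fun _ => Finset.range (N + 1))).image
      (fun f => ∏ q ∈ S.attach, q.1 ^ f q.1 q.2) := by
    intro n hn
    obtain ⟨f, hf, hnf⟩ := W_exponents S N n hn
    rw [Finset.mem_image]
    refine ⟨fun q _ => f q, ?_, ?_⟩
    · rw [Finset.mem_pi]
      intro q hq
      rw [Finset.mem_range]
      have := hf q hq
      omega
    · rw [hnf]
      exact Finset.prod_attach S (fun q => q ^ f q)
  calc (W S N).card ≤ _ := Finset.card_le_card hsub
    _ ≤ (S.pi (fun _ => Finset.range (N + 1))).card := Finset.card_image_le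
    _ = (N + 1) ^ S.card := by
      rw [Finset.card_pi]
      simp

lemma recDiv_ge (S : Finset ℕ) (hS : ∀ q ∈ S, q.Prime) (n : ℕ) (hn : 0 < n) :
    ∑ q ∈ S.filter (fun q => q ∣ n), recDiv (n / q) ≤ recDiv n := by
  rw [recDiv_eq n]
  have hinj : Set.InjOn (fun q => n / q) (S.filter (fun q => q ∣ n) : Set ℕ) := by
    intro x hx y hy hxy
    simp only [Finset.coe_filter, Set.mem_ofPred_eq] at hx hy
    dsimp only at hxy
    have h1 := Nat.div_mul_cancel hx.2
    have h2 := Nat.div_mul_cancel hy.2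
    have h3 : 0 < n / x := Nat.div_pos (Nat.le_of_dvd hn hx.2) (hS x hx.1).pos
    rw [← hxy] at h2
    exact Nat.eq_of_mul_eq_mul_left h3 (h1.trans h2.symm)
  have hsum : ∑ q ∈ S.filter (fun q => q ∣ n), recDiv (n / q)
      = ∑ m ∈ (S.filter (fun q => q ∣ n)).image (fun q => n / q), recDiv m :=
    (Finset.sum_image hinj).symm
  rw [hsum]
  have hsub : (S.filter (fun q => q ∣ n)).image (fun q => n / q) ⊆ n.properDivisors := by
    intro m hm
    simp only [Finset.mem_image, Finset.mem_filter] at hm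
    obtain ⟨q, ⟨hq, hqn⟩, rfl⟩ := hm
    rw [Nat.mem_properDivisors]
    exact ⟨Nat.div_dvd_of_dvd hqn, Nat.div_lt_self hn (hS q hq).one_lt⟩
  have := Finset.sum_le_sum_of_subset (f := recDiv) hsub
  omega

lemma sum_ge (S : Finset ℕ) (hS : ∀ q ∈ S, q.Prime) (N : ℕ) :
    (∑ q ∈ S, (1 : ℝ) / q) ^ N ≤ ∑ n ∈ W S N, (recDiv n : ℝ) / n := by
  induction N with
  | zero =>
    simp only [W, pow_zero, Finset.sum_singleton]
    rw [recDiv_eq]
    simp
  | succ N ih =>
    have hσ : 0 ≤ ∑ q ∈ S, (1 : ℝ) / q := Finset.sum_nonneg (fun q _ => by positivity)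
    calc (∑ q ∈ S, (1 : ℝ) / q) ^ (N + 1)
        = (∑ q ∈ S, (1 : ℝ) / q) * (∑ q ∈ S, (1 : ℝ) / q) ^ N := by rw [pow_succ, mul_comm]
      _ ≤ (∑ q ∈ S, (1 : ℝ) / q) * ∑ n ∈ W S N, (recDiv n : ℝ) / n :=
        mul_le_mul_of_nonneg_left ih hσ
      _ = ∑ x ∈ S ×ˢ W S N, (1 : ℝ) / x.1 * ((recDiv x.2 : ℝ) / x.2) := by
        rw [Finset.sum_mul_sum, Finset.sum_product]
      _ ≤ ∑ y ∈ (W S (N + 1)).sigma (fun n => S.filter (fun q => q ∣ n)),
            (recDiv (y.1 / y.2) : ℝ) / y.1 := by
        classical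
        have hinj : Set.InjOn (fun x : ℕ × ℕ => (⟨x.1 * x.2, x.1⟩ : (_ : ℕ) × ℕ))
            (S ×ˢ W S N : Finset (ℕ × ℕ)) := by
          intro x hx y hy hxy
          simp only [Finset.coe_product, Set.mem_prod, Finset.mem_coe] at hx hy
          simp only [Sigma.mk.injEq, heq_eq_eq] at hxy
          obtain ⟨h1, h2⟩ := hxy
          have hxp := (hS x.1 hx.1).pos
          rw [← h2] at h1
          exact Prod.ext h2 (Nat.eq_of_mul_eq_mul_left hxp h1)
        have himg : (S ×ˢ W S N).image (fun x : ℕ × ℕ => (⟨x.1 * x.2, x.1⟩ : (_ : ℕ) × ℕ))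
            ⊆ (W S (N + 1)).sigma (fun n => S.filter (fun q => q ∣ n)) := by
          intro y hy
          simp only [Finset.mem_image, Finset.mem_product, Prod.exists] at hy
          obtain ⟨q, m, ⟨hq, hm⟩, rfl⟩ := hy
          rw [Finset.mem_sigma]
          constructor
          · simp only [W, Finset.mem_image, Finset.mem_product, Prod.exists]
            exact ⟨q, m, ⟨hq, hm⟩, rfl⟩
          · simp only [Finset.mem_filter]
            exact ⟨hq, Dvd.intro m rfl⟩
        have e : ∑ x ∈ S ×ˢ W S N, (1 : ℝ) / x.1 * ((recDiv x.2 : ℝ) / x.2)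
            = ∑ y ∈ (S ×ˢ W S N).image
                (fun x : ℕ × ℕ => (⟨x.1 * x.2, x.1⟩ : (_ : ℕ) × ℕ)),
                (recDiv (y.1 / y.2) : ℝ) / y.1 := by
          rw [Finset.sum_image hinj]
          apply Finset.sum_congr rfl
          intro x hx
          rw [Finset.mem_product] at hx
          have hxp := (hS x.1 hx.1).pos
          dsimp only
          rw [Nat.mul_div_cancel_left _ hxp]
          push_cast
          have h0 : (x.1 : ℝ) ≠ 0 := by positivity
          have h1 : (x.2 : ℝ) ≠ 0 := by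
            have := W_pos S hS N x.2 hx.2
            positivity
          field_simp
        rw [e]
        apply Finset.sum_le_sum_of_subset_of_nonneg himg
        intro y _ _
        positivity
      _ = ∑ n ∈ W S (N + 1), ∑ q ∈ S.filter (fun q => q ∣ n), (recDiv (n / q) : ℝ) / n := by
        rw [Finset.sum_sigma]
      _ ≤ ∑ n ∈ W S (N + 1), (recDiv n : ℝ) / n := by
        apply Finset.sum_le_sum
        intro n hn
        have hnpos := W_pos S hS (N + 1) n hn
        rw [← Finset.sum_div]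
        apply div_le_div_of_nonneg_right _ (by positivity)
        exact_mod_cast recDiv_ge S hS n hnpos

lemma exists_primes (y : ℕ) : ∃ S : Finset ℕ, (∀ q ∈ S, q.Prime ∧ y ≤ q) ∧
    1 < ∑ q ∈ S, (1 : ℝ) / q := by
  have h0 := not_summable_one_div_on_primes
  rw [← summable_nat_add_iff y] at h0
  have hnn : ∀ n : ℕ, 0 ≤ Set.indicator {p : ℕ | p.Prime} (fun n : ℕ => (1 : ℝ) / n) (n + y) := by
    intro n
    apply Set.indicator_nonneg
    intro x _
    positivity
  rw [not_summable_iff_tendsto_nat_atTop_of_nonneg hnn] at h0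
  obtain ⟨N, hN⟩ := (h0.eventually (Filter.eventually_gt_atTop 1)).exists
  refine ⟨((Finset.range N).image (fun i => i + y)).filter Nat.Prime, ?_, ?_⟩
  · intro q hq
    simp only [Finset.mem_filter, Finset.mem_image, Finset.mem_range] at hq
    obtain ⟨⟨i, _, rfl⟩, hp⟩ := hq
    exact ⟨hp, by omega⟩
  · rw [Finset.sum_filter, Finset.sum_image (fun a _ b _ h => by simpa using h)]
    refine lt_of_lt_of_eq hN ?_
    apply Finset.sum_congr rfl
    intro i _
    simp only [Set.indicator_apply, Set.mem_ofPred_eq]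

/-- For every `k` there is an ample number (a positive `n` with `a(n) > n`) coprime to the
product of the first `k` primes `p_1 = 2, ..., p_k` (`Nat.nth Nat.Prime i` is `p_{i+1}`). -/
theorem result (k : ℕ) :
    ∃ n : ℕ, 0 < n ∧ Nat.Coprime n (∏ i ∈ Finset.range k, Nat.nth Nat.Prime i) ∧
      n < recDiv n := by
  obtain ⟨S, hS, hσ⟩ := exists_primes (Nat.nth Nat.Prime k)
  have hSp : ∀ q ∈ S, q.Prime := fun q hq => (hS q hq).1
  set σ : ℝ := ∑ q ∈ S, (1 : ℝ) / q with hσdef
  by_contra hcon
  push Not at hcon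
  have hcop : ∀ q ∈ S, Nat.Coprime q (∏ i ∈ Finset.range k, Nat.nth Nat.Prime i) := by
    intro q hq
    apply Nat.Coprime.prod_right
    intro i hi
    rw [Finset.mem_range] at hi
    have hpi : (Nat.nth Nat.Prime i).Prime := Nat.prime_nth_prime i
    rw [Nat.coprime_primes (hSp q hq) hpi]
    have h1 : Nat.nth Nat.Prime i < Nat.nth Nat.Prime k :=
      Nat.nth_strictMono Nat.infinite_setOfPred_prime hi
    have h2 := (hS q hq).2
    omega
  have hbound : ∀ N : ℕ, σ ^ N ≤ ((N + 1 : ℕ) : ℝ) ^ S.card := by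
    intro N
    calc σ ^ N ≤ ∑ n ∈ W S N, (recDiv n : ℝ) / n := sum_ge S hSp N
      _ ≤ ∑ n ∈ W S N, (1 : ℝ) := by
        apply Finset.sum_le_sum
        intro n hn
        have hpos := W_pos S hSp N n hn
        have hc := W_coprime S N _ hcop n hn
        have hle := hcon n hpos hc
        rw [div_le_one (by positivity)]
        exact_mod_cast hle
      _ = ((W S N).card : ℝ) := by simp
      _ ≤ ((N + 1 : ℕ) : ℝ) ^ S.card := by exact_mod_cast W_card S N
  have hlim := tendsto_pow_const_div_const_pow_of_one_lt S.card hσ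
  have hlim2 := (Filter.tendsto_add_atTop_iff_nat 1).mpr hlim
  have hev := hlim2.eventually (gt_mem_nhds (show (0 : ℝ) < 1 / σ by positivity))
  obtain ⟨N, hN⟩ := hev.exists
  have hb := hbound N
  have hσpos : 0 < σ := by linarith
  have h1 : ((N + 1 : ℕ) : ℝ) ^ S.card < σ ^ N := by
    rw [div_lt_iff₀ (by positivity)] at hN
    calc ((N + 1 : ℕ) : ℝ) ^ S.card < 1 / σ * σ ^ (N + 1) := hN
      _ = σ ^ N := by rw [pow_succ]; field_simp
  linarith

end Pool.Agent.Results.MP_bbacab_nt.AmpleCoprime
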